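import Pool.Agent.Helper50.Tm.Goals

/-!
Packet TM-EXTS: the relation Extends in terms of sec (MP_f619a5_ag).
-/

open CategoryTheory AlgebraicGeometry Limits TensorProduct MonoidalCategory
open scoped Obj

namespace Pool.Agent.Helper5.Tm

open Pool.Agent.Helper50.Tm

theorem gEXTS : Pool.Agent.Helper50.Tm.EXTS := by
  intro K R M _ _ _ _ _ X _ 𝒢 x s
  rw [sec_eq_iff]
  have hz : ∀ z : SpecA M M ⟶ (bc R M).obj 𝒢.G,
      z.left ≫ pullback.fst _ _ = Spec.map (CommRingCat.ofHom (algebraMap R M)) ≫ s.left →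
        z = bcEquiv (M := M) 𝒢.G (s.map (Algebra.ofId R M)) := by
    intro z h
    apply Over.OverMorphism.ext
    apply pullback.hom_ext
    · rw [bcEquiv_left_fst]
      exact h
    · exact (Over.w z).trans (Over.w (bcEquiv (M := M) 𝒢.G (s.map (Algebra.ofId R M)))).symm
  constructor
  · rintro ⟨z, h1, h2⟩
    rw [gen_apply, ← hz z h1]
    apply Over.OverMorphism.ext
    rw [bcEquiv_symm_left]
    exact h2
  · intro h
    refine ⟨bcEquiv (M := M) 𝒢.G (s.map (Algebra.ofId R M)), ?_, ?_⟩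
    · rw [bcEquiv_left_fst]
      rfl
    · rw [← h, gen_apply, bcEquiv_symm_left]

end Pool.Agent.Helper5.Tm
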